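import Pool.Agent.Y808.LB.Stm3

/-!
# Smooth algebras over regular arithmetic surfaces: their local rings are flat points
-/

set_option autoImplicit false

open Polynomial IsLocalRing Pool.Agent.Y808.LB

noncomputable section

namespace Pool.Agent.Y44.LB

/-- The general construction of flat points. -/
theorem flatPoint_of (R B : Type) [CommRing R] [CommRing B] [IsLocalRing B] [Algebra R B]
    (p : Ideal R) [p.IsPrime] (hp : (maximalIdeal B).comap (algebraMap R B) = p)
    (hE : Algebra.EssFiniteType R B) (hF : Module.Flat R B)
    (hB : IsRegularLocalRing (B ⧸ p.map (algebraMap R B)))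
    (hR : IsRegularLocalRing (Localization.AtPrime p))
    (hP : PerfectField p.ResidueField) (hd : ringKrullDim (Localization.AtPrime p) ≤ 2) :
    FlatPoint B := by
  have hu : ∀ y : p.primeCompl, IsUnit (algebraMap R B y) := by
    intro y
    by_contra hy
    exact y.2 (hp ▸ (mem_maximalIdeal _).mpr hy)
  let al : Algebra (Localization.AtPrime p) B :=
    (IsLocalization.lift (M := p.primeCompl) (S := Localization.AtPrime p) hu).toAlgebra
  have hT : IsScalarTower R (Localization.AtPrime p) B :=
    IsScalarTower.of_algebraMap_eq fun x => (IsLocalization.lift_eq hu x).symm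
  have hm : (maximalIdeal (Localization.AtPrime p)).map
      (algebraMap (Localization.AtPrime p) B) = p.map (algebraMap R B) := by
    rw [← Localization.AtPrime.map_eq_maximalIdeal, Ideal.map_map, ← IsScalarTower.algebraMap_eq]
  have hle : p.map (algebraMap R B) ≤ maximalIdeal B := by
    rw [Ideal.map_le_iff_le_comap, hp]
  refine ⟨Localization.AtPrime p, inferInstance, hR, al, hP, hd, ?_, ?_, ?_, ?_⟩
  · constructor
    intro a ha
    by_contra hna
    have h1 : a ∈ maximalIdeal (Localization.AtPrime p) := (mem_maximalIdeal _).mpr hna
    have h2 := hle (hm ▸ Ideal.mem_map_of_mem (algebraMap (Localization.AtPrime p) B) h1)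
    exact (mem_maximalIdeal _).mp h2 ha
  · exact Algebra.EssFiniteType.of_comp R (Localization.AtPrime p) B
  · exact (Module.flat_iff_of_isLocalization (Localization.AtPrime p) p.primeCompl B).mpr hF
  · rw [hm]
    exact hB

/-- The residue fields at the primes over the generic point of `D` have characteristic zero. -/
theorem perfect_of_bot {D S : Type} [CommRing D] [CharZero D] [CommRing S] [Algebra D S]
    (p : Ideal S) [p.IsPrime] (h : p.comap (algebraMap D S) = ⊥) :
    PerfectField p.ResidueField := by
  have hinj : Function.Injective ((algebraMap S p.ResidueField).comp (algebraMap D S)) := by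
    rw [RingHom.injective_iff_ker_eq_bot, ← h, eq_comm]
    ext x
    simp [RingHom.mem_ker, Ideal.algebraMap_residueField_eq_zero]
  have hc : CharZero p.ResidueField := charZero_of_injective_ringHom hinj
  infer_instance

/-- Residue fields at maximal ideals are finite over those of `D`. -/
theorem perfect_of_maximal {D S : Type} [CommRing D] [CommRing S] [Algebra D S]
    (hft : Algebra.FiniteType D S) (p : Ideal S) [p.IsMaximal]
    (hP : PerfectField (p.comap (algebraMap D S)).ResidueField) :
    PerfectField p.ResidueField := by
  set o := p.comap (algebraMap D S) with ho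
  let φ : D →+* p.ResidueField := (algebraMap S p.ResidueField).comp (algebraMap D S)
  have hφ : ∀ x, φ x = 0 ↔ x ∈ o := by
    intro x
    simp [φ, ho, Ideal.algebraMap_residueField_eq_zero]
  let ψ : o.ResidueField →+* p.ResidueField :=
    Ideal.ResidueField.lift o φ (fun x hx => (hφ x).mpr hx)
      (fun x hx => isUnit_iff_ne_zero.mpr fun h0 => hx ((hφ x).mp h0))
  let al : Algebra o.ResidueField p.ResidueField := ψ.toAlgebra
  have hT : IsScalarTower D o.ResidueField p.ResidueField := by
    refine IsScalarTower.of_algebraMap_eq fun x => ?_
    exact (Ideal.ResidueField.lift_algebraMap (I := o) φ (fun x hx => (hφ x).mpr hx)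
      (fun x hx => isUnit_iff_ne_zero.mpr fun h0 => hx ((hφ x).mp h0)) x).symm
  have h1 : Module.Finite S p.ResidueField := inferInstance
  have h2 : Algebra.FiniteType S p.ResidueField := inferInstance
  have h3 : Algebra.FiniteType D p.ResidueField := Algebra.FiniteType.trans hft h2
  have h4 : Algebra.FiniteType o.ResidueField p.ResidueField :=
    Algebra.FiniteType.of_restrictScalars_finiteType D _ _
  have h5 : Module.Finite o.ResidueField p.ResidueField :=
    finite_of_finite_type_of_isJacobsonRing _ _
  exact Algebra.IsAlgebraic.perfectField o.ResidueField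

theorem t_SMC : S_SMF → S_SMC := by
  intro hSMF D S A _ _ _ _ _ _ _ _ _ hperf hft hinj hdim hh hsm q _
  obtain ⟨hflat, hreg⟩ := hSMF S A hsm q
  set p := q.comap (algebraMap S A) with hp
  have hEA : Algebra.EssFiniteType S (Localization.AtPrime q) := by
    have h1 : Algebra.FiniteType S A := inferInstance
    have h2 : Algebra.EssFiniteType S A := inferInstance
    have h3 : Algebra.EssFiniteType A (Localization.AtPrime q) := inferInstance
    exact Algebra.EssFiniteType.comp S A (Localization.AtPrime q)
  have hcomap : (maximalIdeal (Localization.AtPrime q)).comap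
      (algebraMap S (Localization.AtPrime q)) = p := by
    have h1 : (maximalIdeal (Localization.AtPrime q)).comap
        (algebraMap A (Localization.AtPrime q)) = q :=
      IsLocalization.AtPrime.under_maximalIdeal (Localization.AtPrime q) q
    rw [IsScalarTower.algebraMap_eq S A (Localization.AtPrime q), ← Ideal.comap_comap, h1]
  have hpd : ringKrullDim (Localization.AtPrime p) ≤ 2 := by
    rw [IsLocalization.AtPrime.ringKrullDim_eq_height p]
    exact Ideal.height_le_ringKrullDim_of_isPrime.trans hdim
  have hpr : IsRegularLocalRing (Localization.AtPrime p) := inferInstance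
  by_cases ho : p.comap (algebraMap D S) = ⊥
  · exact flatPoint_of S _ p hcomap hEA hflat hreg hpr (perfect_of_bot p ho) hpd
  by_cases hmax : p.IsMaximal
  · exact flatPoint_of S _ p hcomap hEA hflat hreg hpr
      (perfect_of_maximal hft p (hperf _)) hpd
  -- the generic points of the closed fibres
  have hht : p.height = 1 := by
    obtain ⟨m, hm, hpm⟩ := Ideal.exists_le_maximal p (Ideal.IsPrime.ne_top inferInstance)
    have hlt : p < m := lt_of_le_of_ne hpm fun h => hmax (h ▸ hm)
    have h1 : p.height < m.height := Ideal.height_strict_mono_of_isPrime_of_isPrime hlt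
    have h2 : m.height ≤ 2 := by
      have := (Ideal.height_le_ringKrullDim_of_isPrime (I := m)).trans hdim
      exact WithBot.coe_le_coe.mp this
    have h3 : p.height < 2 := h1.trans_le h2
    have h4 : p ≠ ⊥ := by
      intro h
      apply ho
      rw [h, ← RingHom.ker_eq_comap_bot]
      exact (RingHom.injective_iff_ker_eq_bot _).mp hinj
    have h5 : (⊥ : Ideal S).height < p.height :=
      Ideal.height_strict_mono_of_isPrime_of_isPrime (bot_lt_iff_ne_bot.mpr h4)
    have h6 : 0 < p.height := lt_of_le_of_lt zero_le h5
    have h7 : p.height < 1 + 1 := by rw [one_add_one_eq_two]; exact h3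
    exact le_antisymm (Order.le_of_lt_add_one h7) (Order.one_le_iff_pos.mpr h6)
  have hfib := hh p hht ho
  set o := p.comap (algebraMap D S) with hodef
  let alB : Algebra D (Localization.AtPrime q) :=
    ((algebraMap S (Localization.AtPrime q)).comp (algebraMap D S)).toAlgebra
  have hT : IsScalarTower D S (Localization.AtPrime q) := IsScalarTower.of_algebraMap_eq' rfl
  have hcomap' : (maximalIdeal (Localization.AtPrime q)).comap
      (algebraMap D (Localization.AtPrime q)) = o := by
    rw [IsScalarTower.algebraMap_eq D S (Localization.AtPrime q), ← Ideal.comap_comap, hcomap]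
  have hfl : Module.Flat D S := by
    rw [IsDedekindDomain.flat_iff_torsion_eq_bot, ← Submodule.isTorsionFree_iff_torsion_eq_bot]
    exact Module.isTorsionFree_iff_algebraMap_injective.mpr hinj
  have hflD : Module.Flat D (Localization.AtPrime q) := Module.Flat.trans D S _
  have hED : Algebra.EssFiniteType D (Localization.AtPrime q) :=
    Algebra.EssFiniteType.comp D S (Localization.AtPrime q)
  have hmapeq : o.map (algebraMap D (Localization.AtPrime q)) =
      p.map (algebraMap S (Localization.AtPrime q)) := by
    let f : Localization.AtPrime p →+* Localization.AtPrime q :=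
      Localization.localRingHom p q (algebraMap S A) rfl
    have hf : f.comp (algebraMap S (Localization.AtPrime p)) =
        algebraMap S (Localization.AtPrime q) := by
      ext x
      simp [f, IsScalarTower.algebraMap_apply S A (Localization.AtPrime q)]
    have h1 : p.map (algebraMap S (Localization.AtPrime q)) =
        (maximalIdeal (Localization.AtPrime p)).map f := by
      rw [← Localization.AtPrime.map_eq_maximalIdeal, Ideal.map_map, hf]
    rw [h1, ← hfib, Ideal.map_map, IsScalarTower.algebraMap_eq D S (Localization.AtPrime p),
      ← RingHom.comp_assoc, hf, ← IsScalarTower.algebraMap_eq]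
  refine flatPoint_of D _ o hcomap' hED hflD (hmapeq ▸ hreg) inferInstance (hperf o) ?_
  rw [IsLocalization.AtPrime.ringKrullDim_eq_height o]
  have hD : Ring.KrullDimLE 1 D := inferInstance
  have h1 : ringKrullDim D ≤ ((1 : ℕ) : WithBot ℕ∞) := (Order.krullDimLE_iff _ _).mp hD
  have h2 : ((1 : ℕ) : WithBot ℕ∞) ≤ 2 := by
    have : ((1 : ℕ) : WithBot ℕ∞) ≤ ((2 : ℕ) : WithBot ℕ∞) := by
      exact_mod_cast one_le_two
    exact this
  exact (Ideal.height_le_ringKrullDim_of_isPrime (I := o)).trans (h1.trans h2)

end Pool.Agent.Y44.LB
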